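import Pool.Agent.Helper120.Sylvester

set_option autoImplicit false

/-!
Sylvester's four point problem over plane sets of finite area: the infimum of the probability that
four independent uniform points of `D` are in convex position is not attained by any `D`.
The proof is in `Pool.Agent.Helper120.Sylvester`.
-/

namespace Pool.Agent.Results.MP_4d3a90_co.NotAttained

open MeasureTheory ProbabilityTheory

/-- `D` is Lebesgue measurable with `0 < Area D < ∞`. -/
def Admissible (D : Set (ℝ × ℝ)) : Prop :=
  NullMeasurableSet D volume ∧ 0 < volume D ∧ volume D < ⊤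

/-- `Sylv D`: the probability that, among four independent uniform points of `D`, one lies in the
convex hull (triangle) of the other three. Here `cond volume D` is the uniform distribution on `D`,
i.e. `volume.restrict D` divided by `volume D`. -/
noncomputable def Sylv (D : Set (ℝ × ℝ)) : ℝ :=
  ((Measure.pi fun _ : Fin 4 => ProbabilityTheory.cond volume D)
    {x : Fin 4 → ℝ × ℝ | ∃ i, x i ∈ convexHull ℝ (x '' {j | j ≠ i})}).toReal

/-- the set of all values `1 - Sylv D` -/
def values : Set ℝ := {r : ℝ | ∃ D : Set (ℝ × ℝ), Admissible D ∧ r = 1 - Sylv D}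

/-- the infimum `p` of the problem -/
noncomputable def pInf : ℝ := sInf values

lemma one_sub_Sylv (D : Set (ℝ × ℝ)) (hD : Admissible D) :
    1 - Sylv D = Helper120.Sylvester.phi (cond volume D) := by
  have hp : IsProbabilityMeasure (cond volume D) :=
    cond_isProbabilityMeasure_of_finite hD.2.1.ne' hD.2.2.ne
  set Q := Measure.pi fun _ : Fin 4 => cond volume D with hQ
  have hae := Helper120.Sylvester.ae_F4_ne (cond volume D) cond_absolutelyContinuous
  have h1 : Sylv D = Q.real
      ({x : Fin 4 → ℝ × ℝ | 0 < Helper120.Sylvester.F4 (x 0) (x 1) (x 2) (x 3)}ᶜ) := by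
    unfold Sylv
    rw [← hQ]
    change Q.real _ = _
    apply measureReal_congr
    filter_upwards [hae] with x hx
    apply propext
    constructor
    · intro h h'
      have h2 := (Helper120.Sylvester.exists_mem_iff x hx).1 h
      have h3 : 0 < Helper120.Sylvester.F4 (x 0) (x 1) (x 2) (x 3) := h'
      exact lt_asymm h2 h3
    · intro h
      have h' : ¬ (0 < Helper120.Sylvester.F4 (x 0) (x 1) (x 2) (x 3)) := h
      exact (Helper120.Sylvester.exists_mem_iff x hx).2 (lt_of_le_of_ne (not_lt.1 h') hx)
  rw [h1, probReal_compl_eq_one_sub Helper120.Sylvester.measurableSet_pos]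
  unfold Helper120.Sylvester.phi
  ring

/-- `p` is a genuine infimum: the greatest lower bound of the values. -/
lemma isGLB_pInf : IsGLB values pInf := by
  refine isGLB_csInf ?_ ?_
  · refine ⟨_, Metric.ball (0 : ℝ × ℝ) 1, ⟨Metric.isOpen_ball.measurableSet.nullMeasurableSet,
      Metric.measure_ball_pos volume 0 one_pos, measure_ball_lt_top⟩, rfl⟩
  · refine ⟨0, ?_⟩
    rintro r ⟨D, hD, rfl⟩
    rw [one_sub_Sylv D hD]
    exact measureReal_nonneg

/-- The infimum `p` over all Lebesgue measurable plane sets of positive finite area is not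
attained: `p` is the greatest lower bound of the values `1 - Sylv D`, and every admissible set `D`
has value strictly larger than `p`. -/
theorem result :
    IsGLB values pInf ∧ ∀ D : Set (ℝ × ℝ), Admissible D → pInf < 1 - Sylv D := by
  refine ⟨isGLB_pInf, fun D hD => ?_⟩
  obtain ⟨D', hD', hlt⟩ := Helper120.Sylvester.not_min D hD
  rw [← one_sub_Sylv D' hD', ← one_sub_Sylv D hD] at hlt
  exact lt_of_le_of_lt (isGLB_pInf.1 ⟨D', hD', rfl⟩) hlt

end Pool.Agent.Results.MP_4d3a90_co.NotAttained
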